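import Mathlib
import Pool.Graph.R_seed8.TH115.GD.Ext
import Pool.Agent.Helper55.RL.Def

/-! THIN-3 (helper55), the second half of part `PPR`. -/

set_option autoImplicit false
set_option linter.all false

open Polynomial IsDedekindDomain

namespace Pool.Agent.Helper98.Thin

open Pool.Agent.TH115.GD Pool.Agent.Helper55.RL

/-- The statement of `Q_LAT`. -/
def LATs : Prop := ∀ (p : ℕ) [Fact p.Prime] (m d e : ℕ)
  (T : (Fin m → ℚ_[p]) →ₗ[ℚ_[p]] (Fin m → ℚ_[p])) (Λ : Submodule ℤ_[p] (Fin m → ℚ_[p]))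
  (N₀ : Submodule ℚ_[p] (Fin m → ℚ_[p])),
  (∀ x : Fin m → ℚ_[p], ∃ j : ℕ, ((p : ℚ_[p]) ^ j) • x ∈ Λ) → (∀ x ∈ N₀, x ∈ Λ) →
  (∀ x : Fin m → ℚ_[p], (∀ j : ℕ, ∃ y ∈ Λ, x = ((p : ℚ_[p]) ^ j) • y) → x ∈ N₀) →
  (∀ x ∈ Λ, T x ∈ Λ) → (∀ x ∈ N₀, T x ∈ N₀) →
  (∀ x ∈ Λ, ∃ y ∈ Λ, ((T - 1) ^ d) x = (p : ℚ_[p]) • y) → Nat.Coprime e p →
  (∀ x, (T ^ e) x - x ∈ N₀) → ∀ x, T x - x ∈ N₀

/-- The statement of `Q_UNP`. -/
def UNPs : Prop := ∀ (p : ℕ) [Fact p.Prime] (k k' K F : Type) [Field k] [CharZero k] [Field k']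
  [Algebra k k'] [Field K] [Algebra k[X] K] [Field F] [Algebra k'[X] F] [IsFractionRing k'[X] F]
  [Algebra K F], IsTower k k' K F → (∀ ζ : k', ζ ^ p = 1 → ζ ∈ Set.range (algebraMap k k')) →
  ∀ s : k[X], s ≠ 0 → (∀ x : k', aeval x s = 0 → x ∈ Set.range (algebraMap k k')) →
  ∀ (d : ℕ) (ρ : (Sep F ≃ₐ[K] Sep F) →* GL (Fin d) (ZMod p)),
  (∀ σ, ∃ m : ℕ, ρ (σ ^ p ^ m) = 1) →
  (∀ v : HeightOneSpectrum k'[X], s.map (algebraMap k k') ∉ v.asIdeal →
    ∀ (ι : Sep F →ₐ[F] Sep (Comp k'[X] F v)) (σ : Sep F ≃ₐ[F] Sep F), InLoc k' v ι σ →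
      ρ (σ.restrictScalars K) = 1) →
  ∀ (τ : Sep F ≃ₐ[K] Sep F) (f : ℕ → (Sep F ≃ₐ[F] Sep F) → Fin d → ZMod p),
  (∀ i, Continuous (f i)) →
  (∀ i σ σ', f i (σ * σ') = f i σ + (ρ (σ.restrictScalars K)).1.mulVec (f i σ')) →
  (∀ i, ∀ v : HeightOneSpectrum k'[X], s.map (algebraMap k k') ∉ v.asIdeal →
    ∀ (ι : Sep F →ₐ[F] Sep (Comp k'[X] F v)) (σ : Sep F ≃ₐ[F] Sep F), InLoc k' v ι σ →
      f i σ = 0) →
  (∀ i (σ σ' : Sep F ≃ₐ[F] Sep F), (∀ x, τ (σ' x) = σ (τ x)) →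
    f (i + 1) σ = (ρ τ).1.mulVec (f i σ') - f i σ) →
  ∀ σ, f d σ = 0

section red

variable {p : ℕ} [hp : Fact p.Prime]

/-- reduction modulo `p` of the `p`-adic integers in `ℚ_p` -/
noncomputable def red (q : ℚ_[p]) : ZMod p :=
  open scoped Classical in if h : ‖q‖ ≤ 1 then PadicInt.toZMod (⟨q, h⟩ : ℤ_[p]) else 0

theorem red_coe (z : ℤ_[p]) : red (z : ℚ_[p]) = PadicInt.toZMod z := by
  unfold red
  rw [dif_pos z.2]
  rfl

theorem toZMod_eq_zero (z : ℤ_[p]) : PadicInt.toZMod z = 0 ↔ ‖z‖ < 1 := by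
  rw [← RingHom.mem_ker, PadicInt.ker_toZMod, PadicInt.maximalIdeal_eq_span_p,
    Ideal.mem_span_singleton, PadicInt.norm_lt_one_iff_dvd]

/-- the vector is integral -/
def Intg {d : ℕ} (v : Fin d → ℚ_[p]) : Prop := ∀ i, ‖v i‖ ≤ 1

theorem Intg.exists {d : ℕ} {v : Fin d → ℚ_[p]} (h : Intg v) :
    ∃ w : Fin d → ℤ_[p], v = fun i => ((w i : ℤ_[p]) : ℚ_[p]) :=
  ⟨fun i => ⟨v i, h i⟩, rfl⟩

theorem intg_coe {d : ℕ} (w : Fin d → ℤ_[p]) : Intg fun i => ((w i : ℤ_[p]) : ℚ_[p]) :=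
  fun i => (w i).2

/-- reduction of vectors -/
noncomputable def redv {d : ℕ} (v : Fin d → ℚ_[p]) : Fin d → ZMod p := fun i => red (v i)

theorem redv_coe {d : ℕ} (w : Fin d → ℤ_[p]) :
    redv (fun i => ((w i : ℤ_[p]) : ℚ_[p])) = fun i => PadicInt.toZMod (w i) :=
  funext fun i => red_coe (w i)

theorem redv_add {d : ℕ} {v w : Fin d → ℚ_[p]} (hv : Intg v) (hw : Intg w) :
    redv (v + w) = redv v + redv w := by
  obtain ⟨v, rfl⟩ := hv.exists
  obtain ⟨w, rfl⟩ := hw.exists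
  have h : (fun i => ((v i : ℤ_[p]) : ℚ_[p])) + (fun i => ((w i : ℤ_[p]) : ℚ_[p])) =
      fun i => (((v i + w i : ℤ_[p])) : ℚ_[p]) := by
    funext i
    simp
  rw [h, redv_coe (fun i => v i + w i), redv_coe, redv_coe]
  funext i
  simp

theorem redv_sub {d : ℕ} {v w : Fin d → ℚ_[p]} (hv : Intg v) (hw : Intg w) :
    redv (v - w) = redv v - redv w := by
  obtain ⟨v, rfl⟩ := hv.exists
  obtain ⟨w, rfl⟩ := hw.exists
  have h : (fun i => ((v i : ℤ_[p]) : ℚ_[p])) - (fun i => ((w i : ℤ_[p]) : ℚ_[p])) =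
      fun i => (((v i - w i : ℤ_[p])) : ℚ_[p]) := by
    funext i
    simp
  rw [h, redv_coe (fun i => v i - w i), redv_coe, redv_coe]
  funext i
  simp

theorem redv_zero {d : ℕ} : redv (0 : Fin d → ℚ_[p]) = 0 := by
  have h := redv_coe (p := p) (fun _ : Fin d => (0 : ℤ_[p]))
  simp only [PadicInt.coe_zero, map_zero] at h
  exact h

theorem redv_eq_zero {d : ℕ} {v : Fin d → ℚ_[p]} (hv : Intg v) (h : redv v = 0) (i : Fin d) :
    ‖v i‖ < 1 := by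
  obtain ⟨v, rfl⟩ := hv.exists
  rw [redv_coe] at h
  exact (toZMod_eq_zero (v i)).1 (congrFun h i)

theorem redv_eq_of_near {d : ℕ} {v w : Fin d → ℚ_[p]} (hv : Intg v) (hw : Intg w)
    (h : ∀ i, ‖v i - w i‖ < 1) : redv v = redv w := by
  have h1 := redv_sub hv hw
  obtain ⟨v, rfl⟩ := hv.exists
  obtain ⟨w, rfl⟩ := hw.exists
  rw [redv_coe, redv_coe]
  funext i
  rw [← sub_eq_zero, ← map_sub, toZMod_eq_zero]
  exact h i

theorem coe_mulVec {d : ℕ} (A : Matrix (Fin d) (Fin d) ℤ_[p]) (w : Fin d → ℤ_[p]) :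
    (A.map (algebraMap ℤ_[p] ℚ_[p])).mulVec (fun i => ((w i : ℤ_[p]) : ℚ_[p])) =
      fun i => ((A.mulVec w i : ℤ_[p]) : ℚ_[p]) := by
  funext i
  exact (RingHom.map_mulVec (algebraMap ℤ_[p] ℚ_[p]) A w i).symm

variable {Γ : Type} [Group Γ] {d : ℕ}

theorem intg_act (ρ : Γ →* GL (Fin d) ℤ_[p]) (σ : Γ) {v : Fin d → ℚ_[p]} (hv : Intg v) :
    Intg (actQ ρ σ v) := by
  obtain ⟨w, rfl⟩ := hv.exists
  unfold actQ
  rw [coe_mulVec]
  exact intg_coe _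

/-- the reduction of a representation -/
noncomputable def rbar (ρ : Γ →* GL (Fin d) ℤ_[p]) : Γ →* GL (Fin d) (ZMod p) :=
  (Matrix.GeneralLinearGroup.map (PadicInt.toZMod : ℤ_[p] →+* ZMod p)).comp ρ

theorem redv_act (ρ : Γ →* GL (Fin d) ℤ_[p]) (σ : Γ) {v : Fin d → ℚ_[p]} (hv : Intg v) :
    redv (actQ ρ σ v) = (rbar ρ σ).1.mulVec (redv v) := by
  obtain ⟨w, rfl⟩ := hv.exists
  unfold actQ
  rw [coe_mulVec, redv_coe, redv_coe]
  funext i
  exact RingHom.map_mulVec (PadicInt.toZMod : ℤ_[p] →+* ZMod p) (ρ σ).1 w i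

theorem cont_redv {G : Type} [TopologicalSpace G] {g : G → Fin d → ℚ_[p]} (hg : Continuous g)
    (hi : ∀ σ, Intg (g σ)) : Continuous fun σ => redv (g σ) := by
  have : IsLocallyConstant fun σ => redv (g σ) := by
    rw [IsLocallyConstant.iff_eventually_eq]
    intro x
    have h1 : ∀ i, ∀ᶠ y in nhds x, ‖g y i - g x i‖ < 1 := by
      intro i
      have h2 : Continuous fun y => ‖g y i - g x i‖ :=
        (((continuous_apply i).comp hg).sub continuous_const).norm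
      have h3 := h2.tendsto x
      simp only [sub_self, norm_zero] at h3
      exact h3.eventually (gt_mem_nhds one_pos)
    filter_upwards [Filter.eventually_all.2 h1] with y hy
    exact redv_eq_of_near (hi y) (hi x) hy
  exact this.continuous

theorem act_add (ρ : Γ →* GL (Fin d) ℤ_[p]) (σ : Γ) (v w : Fin d → ℚ_[p]) :
    actQ ρ σ (v + w) = actQ ρ σ v + actQ ρ σ w := Matrix.mulVec_add _ _ _

theorem act_sub (ρ : Γ →* GL (Fin d) ℤ_[p]) (σ : Γ) (v w : Fin d → ℚ_[p]) :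
    actQ ρ σ (v - w) = actQ ρ σ v - actQ ρ σ w := Matrix.mulVec_sub _ _ _

theorem act_smul (ρ : Γ →* GL (Fin d) ℤ_[p]) (σ : Γ) (t : ℚ_[p]) (v : Fin d → ℚ_[p]) :
    actQ ρ σ (t • v) = t • actQ ρ σ v := Matrix.mulVec_smul _ _ _

theorem act_zero (ρ : Γ →* GL (Fin d) ℤ_[p]) (σ : Γ) :
    actQ ρ σ (0 : Fin d → ℚ_[p]) = 0 := Matrix.mulVec_zero _

theorem act_sum {ι : Type} (ρ : Γ →* GL (Fin d) ℤ_[p]) (σ : Γ) (s : Finset ι)
    (f : ι → Fin d → ℚ_[p]) : actQ ρ σ (∑ i ∈ s, f i) = ∑ i ∈ s, actQ ρ σ (f i) := by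
  classical
  induction s using Finset.induction_on with
  | empty => simp [actQ]
  | insert i s hi ih => rw [Finset.sum_insert hi, Finset.sum_insert hi, act_add, ih]

theorem act_mul (ρ : Γ →* GL (Fin d) ℤ_[p]) (σ τ : Γ) (v : Fin d → ℚ_[p]) :
    actQ ρ (σ * τ) v = actQ ρ σ (actQ ρ τ v) := by
  unfold actQ
  rw [map_mul, Units.val_mul, Matrix.map_mul, Matrix.mulVec_mulVec]

theorem act_one (ρ : Γ →* GL (Fin d) ℤ_[p]) (v : Fin d → ℚ_[p]) : actQ ρ 1 v = v := by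
  unfold actQ
  rw [map_one, Units.val_one, Matrix.map_one _ (map_zero _) (map_one _), Matrix.one_mulVec]

end red

section loc

variable {p : ℕ} [Fact p.Prime] {K F : Type} [Field K] [Field F] [Algebra K F]

/-- Two embeddings of `Sep F` differ by an automorphism. -/
theorem ex_conj {E : Type} [Field E] [Algebra F E] (ι ι' : Sep F →ₐ[F] E) :
    ∃ g : Sep F ≃ₐ[F] Sep F, ∀ x, ι (g x) = ι' x := by
  letI : Algebra (Sep F) E := ι.toRingHom.toAlgebra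
  haveI : IsScalarTower F (Sep F) E := IsScalarTower.of_algebraMap_eq fun r => (ι.commutes r).symm
  refine ⟨AlgHom.restrictNormal' ι' (Sep F), fun x => ?_⟩
  exact AlgHom.restrictNormal_commutes ι' (Sep F) x

/-- a cocycle which is locally trivial at a place where `ρ` is not ramified is zero there -/
theorem zero_any {k' : Type} [Field k'] [Algebra k'[X] F] [IsFractionRing k'[X] F] {d : ℕ}
    {ρ : (Sep F ≃ₐ[K] Sep F) →* GL (Fin d) ℤ_[p]} {c : (Sep F ≃ₐ[F] Sep F) → Fin d → ℚ_[p]}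
    (hc : ∀ σ τ, c (σ * τ) = c σ + actQ ρ (σ.restrictScalars K) (c τ))
    {v : HeightOneSpectrum k'[X]} (h : LocCobAt k' ρ c v)
    (hur : ∀ (ι : Sep F →ₐ[F] Sep (Comp k'[X] F v)) (σ : Sep F ≃ₐ[F] Sep F), InLoc k' v ι σ →
      ρ (σ.restrictScalars K) = 1)
    (ι : Sep F →ₐ[F] Sep (Comp k'[X] F v)) (σ : Sep F ≃ₐ[F] Sep F) (hσ : InLoc k' v ι σ) :
    c σ = 0 := by
  obtain ⟨ι', y', h'⟩ := h
  obtain ⟨g, hg⟩ := ex_conj ι ι'
  have rmul : ∀ σ τ : Sep F ≃ₐ[F] Sep F, (σ * τ).restrictScalars K =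
      σ.restrictScalars K * τ.restrictScalars K := fun _ _ => rfl
  have triv : ∀ (τ : Sep F ≃ₐ[K] Sep F) (w : Fin d → ℚ_[p]), ρ τ = 1 → actQ ρ τ w = w := by
    intro τ w hτ
    unfold actQ
    rw [hτ, Units.val_one, Matrix.map_one _ (map_zero _) (map_one _), Matrix.one_mulVec]
  have c1 : c 1 = 0 := by
    have h1 := hc 1 1
    have h2 : ((1 : Sep F ≃ₐ[F] Sep F).restrictScalars K) = 1 := rfl
    rw [mul_one, h2, act_one] at h1
    simpa using h1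
  set σ₁ : Sep F ≃ₐ[F] Sep F := g⁻¹ * σ * g with hσ₁
  have hin : InLoc k' v ι' σ₁ := by
    obtain ⟨τ, hτ⟩ := hσ
    refine ⟨τ, fun x => ?_⟩
    rw [← hg, hτ, ← hg]
    congr 1
    rw [hσ₁, ← AlgEquiv.mul_apply, ← AlgEquiv.mul_apply]
    congr 1
    group
  have e1 : σ = g * (σ₁ * g⁻¹) := by rw [hσ₁]; group
  have e2 : c σ₁ = 0 := by rw [h' σ₁ hin, triv _ _ (hur ι' σ₁ hin), sub_self]
  have e3 := hc g g⁻¹
  rw [mul_inv_cancel, c1] at e3
  rw [e1, hc g, hc σ₁, e2, zero_add, triv _ _ (hur ι' σ₁ hin)]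
  exact e3.symm

end loc

theorem half2' (hUNP : UNPs) (hLAT : LATs) (p : ℕ) [Fact p.Prime] (k k' K F : Type) [Field k]
    [CharZero k] [Field k'] [Algebra k k'] [Field K] [Algebra k[X] K] [Field F] [Algebra k'[X] F]
    [IsFractionRing k'[X] F] [Algebra K F] (hT : IsTower k k' K F)
    (hμ : ∀ ζ : k', ζ ^ p = 1 → ζ ∈ Set.range (algebraMap k k')) (s : k[X]) (hs : s ≠ 0)
    (hroots : ∀ x : k', aeval x s = 0 → x ∈ Set.range (algebraMap k k')) (d m : ℕ)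
    (ρ : (Sep F ≃ₐ[K] Sep F) →* GL (Fin d) ℤ_[p]) (hρ : Continuous ρ)
    (hpro : IsProPOn (⊥ : IntermediateField K (Sep F)) ρ) (hur : UnramOutside k' s ρ)
    (δ : (Sep F ≃ₐ[K] Sep F) →* GL (Fin m) ℤ_[p])
    (c : Fin m → (Sep F ≃ₐ[F] Sep F) → Fin d → ℚ_[p]) (hc : ∀ j, Continuous (c j))
    (hmul : ∀ j σ τ, c j (σ * τ) = c j σ + actQ ρ (σ.restrictScalars K) (c j τ))
    (hloc : ∀ j, ∀ v : HeightOneSpectrum k'[X], s.map (algebraMap k k') ∉ v.asIdeal →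
      LocCobAt k' ρ (c j) v)
    (τ : Sep F ≃ₐ[K] Sep F)
    (hex : ∀ (j : Fin m) (σ σ' : Sep F ≃ₐ[F] Sep F), (∀ x, τ (σ' x) = σ (τ x)) →
      actQ ρ τ (c j σ') = ∑ i, algebraMap ℤ_[p] ℚ_[p] ((δ τ).1 i j) • c i σ)
    (e : ℕ) (he : Nat.Coprime e p)
    (hfix : ∀ (x : Fin m → ℚ_[p]) (σ : Sep F ≃ₐ[F] Sep F),
      ∑ j, (actQ δ (τ ^ e) x - x) j • c j σ = 0) :
    ∀ (x : Fin m → ℚ_[p]) (σ : Sep F ≃ₐ[F] Sep F), ∑ j, (actQ δ τ x - x) j • c j σ = 0 := by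
  haveI := hT.sep
  haveI := hT.fracK
  have hp0 : (p : ℚ_[p]) ≠ 0 := by exact_mod_cast (Fact.out : p.Prime).ne_zero
  have hp1 : (1 : ℝ) < p := by exact_mod_cast (Fact.out : p.Prime).one_lt
  let Φ : (Fin m → ℚ_[p]) → (Sep F ≃ₐ[F] Sep F) → Fin d → ℚ_[p] := fun x σ => ∑ j, x j • c j σ
  have Φadd : ∀ x y σ, Φ (x + y) σ = Φ x σ + Φ y σ := by
    intro x y σ
    show ∑ j, (x + y) j • c j σ = ∑ j, x j • c j σ + ∑ j, y j • c j σ
    rw [← Finset.sum_add_distrib]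
    exact Finset.sum_congr rfl fun j _ => by rw [Pi.add_apply, add_smul]
  have Φsub : ∀ x y σ, Φ (x - y) σ = Φ x σ - Φ y σ := by
    intro x y σ
    show ∑ j, (x - y) j • c j σ = ∑ j, x j • c j σ - ∑ j, y j • c j σ
    rw [← Finset.sum_sub_distrib]
    exact Finset.sum_congr rfl fun j _ => by rw [Pi.sub_apply, sub_smul]
  have Φsmul : ∀ (t : ℚ_[p]) x σ, Φ (t • x) σ = t • Φ x σ := by
    intro t x σ
    show ∑ j, (t • x) j • c j σ = t • ∑ j, x j • c j σ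
    rw [Finset.smul_sum]
    exact Finset.sum_congr rfl fun j _ => by rw [Pi.smul_apply, smul_eq_mul, mul_smul]
  have Φzero : ∀ σ, Φ 0 σ = 0 := by
    intro σ
    show ∑ j, (0 : Fin m → ℚ_[p]) j • c j σ = 0
    exact Finset.sum_eq_zero fun j _ => by rw [Pi.zero_apply, zero_smul]
  have Φmul : ∀ x σ σ', Φ x (σ * σ') = Φ x σ + actQ ρ (σ.restrictScalars K) (Φ x σ') := by
    intro x σ σ'
    show ∑ j, x j • c j (σ * σ') = ∑ j, x j • c j σ + actQ ρ _ (∑ j, x j • c j σ')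
    rw [act_sum, ← Finset.sum_add_distrib]
    exact Finset.sum_congr rfl fun j _ => by rw [act_smul, hmul, smul_add]
  have Φcont : ∀ x, Continuous (Φ x) := by
    intro x
    exact continuous_finset_sum _ fun j _ => (hc j).const_smul (x j)
  let T : (Fin m → ℚ_[p]) →ₗ[ℚ_[p]] (Fin m → ℚ_[p]) :=
    Matrix.mulVecLin ((δ τ).1.map (algebraMap ℤ_[p] ℚ_[p]))
  have hTapp : ∀ x, T x = actQ δ τ x := fun x => rfl
  have hTpow : ∀ n x, (T ^ n) x = actQ δ (τ ^ n) x := by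
    intro n
    induction n with
    | zero => intro x; rw [pow_zero, pow_zero, act_one]; rfl
    | succ n ih => intro x; rw [pow_succ, pow_succ, act_mul, Module.End.mul_apply, ih, hTapp]
  have key : ∀ x (σ σ' : Sep F ≃ₐ[F] Sep F), (∀ z, τ (σ' z) = σ (τ z)) →
      Φ (T x) σ = actQ ρ τ (Φ x σ') := by
    intro x σ σ' h
    show ∑ i, (T x) i • c i σ = actQ ρ τ (∑ j, x j • c j σ')
    rw [act_sum]
    have h1 : ∀ j, actQ ρ τ (x j • c j σ') =
        ∑ i, (algebraMap ℤ_[p] ℚ_[p] ((δ τ).1 i j) * x j) • c i σ := by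
      intro j
      rw [act_smul, hex j σ σ' h, Finset.smul_sum]
      exact Finset.sum_congr rfl fun i _ => by rw [smul_smul, mul_comm]
    rw [Finset.sum_congr rfl fun j _ => h1 j, Finset.sum_comm]
    refine Finset.sum_congr rfl fun i _ => ?_
    rw [← Finset.sum_smul]
    rfl
  have hconj : ∀ σ : Sep F ≃ₐ[F] Sep F, ∃ σ' : Sep F ≃ₐ[F] Sep F, ∀ z, τ (σ' z) = σ (τ z) :=
    fun σ => exists_conj (preserves hT.map) τ σ
  let Λ : Submodule ℤ_[p] (Fin m → ℚ_[p]) :=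
    { carrier := {x | ∀ σ, Intg (Φ x σ)}
      add_mem' := by
        intro x y hx hy σ i
        rw [Φadd]
        exact le_trans (Padic.nonarchimedean _ _) (max_le (hx σ i) (hy σ i))
      zero_mem' := by
        intro σ i
        rw [Φzero]
        simp
      smul_mem' := by
        intro a x hx σ i
        have h1 : (a • x : Fin m → ℚ_[p]) = (a : ℚ_[p]) • x := by
          funext j
          rw [Pi.smul_apply, Pi.smul_apply, Algebra.smul_def]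
          rfl
        rw [h1, Φsmul, Pi.smul_apply, smul_eq_mul, norm_mul]
        exact mul_le_one₀ a.2 (norm_nonneg _) (hx σ i) }
  have memΛ : ∀ x, x ∈ Λ ↔ ∀ σ, Intg (Φ x σ) := fun x => Iff.rfl
  let N₀ : Submodule ℚ_[p] (Fin m → ℚ_[p]) :=
    { carrier := {x | ∀ σ, Φ x σ = 0}
      add_mem' := by
        intro x y hx hy σ
        rw [Φadd, hx σ, hy σ, add_zero]
      zero_mem' := fun σ => Φzero σ
      smul_mem' := by
        intro a x hx σ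
        rw [Φsmul, hx σ, smul_zero] }
  have memN : ∀ x, x ∈ N₀ ↔ ∀ σ, Φ x σ = 0 := fun x => Iff.rfl
  have hTΛ : ∀ x ∈ Λ, T x ∈ Λ := by
    intro x hx
    rw [memΛ] at hx ⊢
    intro σ
    obtain ⟨σ', h⟩ := hconj σ
    rw [key x σ σ' h]
    exact intg_act ρ τ (hx σ')
  have hTN : ∀ x ∈ N₀, T x ∈ N₀ := by
    intro x hx
    rw [memN] at hx ⊢
    intro σ
    obtain ⟨σ', h⟩ := hconj σ
    rw [key x σ σ' h, hx, act_zero]
  have hpowΛ : ∀ x ∈ Λ, ∀ i : ℕ, ((T - 1) ^ i) x ∈ Λ := by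
    intro x hx i
    induction i with
    | zero => simpa using hx
    | succ i ih =>
      rw [pow_succ', Module.End.mul_apply, LinearMap.sub_apply, Module.End.one_apply]
      exact Λ.sub_mem (hTΛ _ ih) ih
  have main := hLAT p m d e T Λ N₀ ?_ ?_ ?_ hTΛ hTN ?_ he ?_
  · intro x σ
    exact (memN _).1 (main x) σ
  · -- absorbing
    intro x
    obtain ⟨C, hC⟩ := isCompact_univ.exists_bound_of_continuousOn (Φcont x).continuousOn
    obtain ⟨n, hn⟩ := pow_unbounded_of_one_lt C hp1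
    refine ⟨n, ?_⟩
    rw [memΛ]
    intro σ i
    rw [Φsmul, Pi.smul_apply, smul_eq_mul, norm_mul, norm_pow, Padic.norm_p, inv_pow]
    have h1 : ‖Φ x σ i‖ ≤ (p : ℝ) ^ n :=
      le_trans (norm_le_pi_norm _ i) (le_trans (hC σ (Set.mem_univ _)) hn.le)
    have h2 : (0 : ℝ) < (p : ℝ) ^ n := pow_pos (by linarith) n
    rw [inv_mul_le_iff₀ h2, mul_one]
    exact h1
  · intro x hx
    rw [memN] at hx
    rw [memΛ]
    intro σ i
    rw [hx]
    simp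
  · intro x hx
    rw [memN]
    intro σ
    funext i
    by_contra hne
    have h0 : 0 < ‖Φ x σ i‖ := norm_pos_iff.2 hne
    obtain ⟨n, hn⟩ := pow_unbounded_of_one_lt (‖Φ x σ i‖)⁻¹ hp1
    obtain ⟨y, hy, e1⟩ := hx n
    have h1 : ‖Φ x σ i‖ ≤ ((p : ℝ) ^ n)⁻¹ := by
      rw [e1, Φsmul, Pi.smul_apply, smul_eq_mul, norm_mul, norm_pow, Padic.norm_p, inv_pow]
      exact mul_le_of_le_one_right (by positivity) (hy σ i)
    have h2 : (0 : ℝ) < (p : ℝ) ^ n := pow_pos (by linarith) n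
    have h3 : (p : ℝ) ^ n ≤ (‖Φ x σ i‖)⁻¹ := by
      rw [le_inv_comm₀ h2 h0]
      exact h1
    linarith
  · -- unipotent modulo `p`
    intro x hx
    have hint : ∀ (i : ℕ) (σ : Sep F ≃ₐ[F] Sep F), Intg (Φ (((T - 1) ^ i) x) σ) := fun i σ => (memΛ _).1 (hpowΛ x hx i) σ
    have hz := hUNP p k k' K F hT hμ s hs hroots d (rbar ρ) ?_ ?_ τ
      (fun (i : ℕ) σ => redv (Φ (((T - 1) ^ i) x) σ)) ?_ ?_ ?_ ?_
    · refine ⟨(p : ℚ_[p])⁻¹ • ((T - 1) ^ d) x, ?_, ?_⟩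
      · rw [memΛ]
        intro σ i
        rw [Φsmul, Pi.smul_apply, smul_eq_mul, norm_mul, norm_inv, Padic.norm_p, inv_inv]
        have h1 := redv_eq_zero (hint d σ) (hz σ) i
        have h2 : ‖Φ (((T - 1) ^ d) x) σ i‖ ≤ (p : ℝ)⁻¹ := by
          have h3 := (Padic.norm_le_pow_iff_norm_lt_pow_add_one
            (Φ (((T - 1) ^ d) x) σ i) (-1)).2 (by simpa using h1)
          simpa using h3
        calc (p : ℝ) * ‖Φ (((T - 1) ^ d) x) σ i‖ ≤ (p : ℝ) * (p : ℝ)⁻¹ :=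
              mul_le_mul_of_nonneg_left h2 (by linarith)
          _ = 1 := mul_inv_cancel₀ (by linarith)
      · rw [smul_smul, mul_inv_cancel₀ hp0, one_smul]
    · intro σ
      obtain ⟨n, hn⟩ := hpro σ (by
        intro x hx
        obtain ⟨y, rfl⟩ := IntermediateField.mem_bot.1 hx
        exact σ.commutes y)
      refine ⟨n, ?_⟩
      apply Units.ext
      ext i j
      have h1 : PadicInt.toZMod (((ρ (σ ^ p ^ n)).1 - 1) i j) = 0 := by
        rw [toZMod_eq_zero, PadicInt.norm_lt_one_iff_dvd]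
        exact hn i j
      rw [Matrix.sub_apply, map_sub, sub_eq_zero] at h1
      have h2 : (rbar ρ (σ ^ p ^ n)).1 i j = PadicInt.toZMod ((ρ (σ ^ p ^ n)).1 i j) := rfl
      rw [h2, h1, Units.val_one, Matrix.one_apply, Matrix.one_apply]
      split_ifs <;> simp
    · intro v hv ι σ hσ
      show Matrix.GeneralLinearGroup.map _ (ρ (σ.restrictScalars K)) = 1
      rw [hur v hv ι σ hσ, map_one]
    · intro i
      exact cont_redv (Φcont _) (hint i)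
    · intro i σ σ'
      show redv (Φ _ (σ * σ')) = redv (Φ _ σ) + (rbar ρ (σ.restrictScalars K)).1.mulVec (redv _)
      rw [Φmul, redv_add (hint i σ) (intg_act ρ _ (hint i σ')), redv_act ρ _ (hint i σ')]
    · intro i v hv ι σ hσ
      have h1 : Φ (((T - 1) ^ i) x) σ = 0 := by
        refine Finset.sum_eq_zero fun j _ => ?_
        rw [zero_any (hmul j) (hloc j v hv) (hur v hv) ι σ hσ, smul_zero]
      show redv (Φ (((T - 1) ^ i) x) σ) = 0
      rw [h1, redv_zero]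
    · intro i σ σ' h
      show redv (Φ (((T - 1) ^ (i + 1)) x) σ) = (rbar ρ τ).1.mulVec (redv (Φ _ σ')) - redv (Φ _ σ)
      rw [pow_succ', Module.End.mul_apply, LinearMap.sub_apply, Module.End.one_apply, Φsub,
        key _ σ σ' h, redv_sub (intg_act ρ _ (hint i σ')) (hint i σ), redv_act ρ _ (hint i σ')]
  · intro x
    rw [memN, hTpow]
    intro σ
    exact hfix x σ

end Pool.Agent.Helper98.Thin
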